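import Pool.Agent.Helper26.LU.Goals

set_option autoImplicit false

namespace Pool.Agent.Helper32.LU

open MeasureTheory Matrix Real Filter Topology
open Pool.Agent.Helper26.LU

/-- Homogeneity for complex values. -/
theorem aeval_scale {σ : Type} [Fintype σ] (P : MvPolynomial σ ℝ) {d : ℕ}
    (hP : P.IsHomogeneous d) (u : ℂ) (y : σ → ℂ) :
    MvPolynomial.aeval (fun i => u * y i) P = u ^ d * MvPolynomial.aeval y P := by
  rw [MvPolynomial.aeval_def, MvPolynomial.aeval_def, MvPolynomial.eval₂_eq',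
    MvPolynomial.eval₂_eq', Finset.mul_sum]
  refine Finset.sum_congr rfl fun m hm => ?_
  have h1 : ∏ i, (u * y i) ^ m i = u ^ d * ∏ i, y i ^ m i := by
    have h2 : ∏ i, (u * y i) ^ m i = (∏ i, u ^ m i) * ∏ i, y i ^ m i := by
      rw [← Finset.prod_mul_distrib]
      exact Finset.prod_congr rfl fun i _ => mul_pow _ _ _
    rw [h2, Finset.prod_pow_eq_pow_sum]
    congr 2
    have h3 := hP.degree_eq_sum_deg_support hm
    rw [h3, Finset.sum_subset (Finset.subset_univ m.support)]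
    intro i _ hi
    simpa using hi
  rw [h1]
  ring

/-- Integral of a polynomial in `e^{ix}`. -/
theorem integral_eval (Q : Polynomial ℂ) :
    ∫ x in (0 : ℝ)..2 * π, Q.eval (Complex.exp (Complex.I * x)) = 2 * π * Q.coeff 0 := by
  have hk : ∀ k : ℕ, ∫ x in (0 : ℝ)..2 * π, (Complex.exp (Complex.I * x)) ^ k
      = if k = 0 then 2 * (π : ℂ) else 0 := by
    intro k
    by_cases h : k = 0
    · subst h
      simp
    · rw [if_neg h]
      have h1 : ∀ x : ℝ, (Complex.exp (Complex.I * x)) ^ k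
          = Complex.exp ((k * Complex.I) * x) := by
        intro x
        rw [← Complex.exp_nat_mul]
        congr 1
        ring
      simp only [h1]
      have hc : (k * Complex.I : ℂ) ≠ 0 :=
        mul_ne_zero (by exact_mod_cast h) Complex.I_ne_zero
      rw [integral_exp_mul_complex hc]
      have h2 : Complex.exp ((k * Complex.I) * ((2 * π : ℝ) : ℂ)) = 1 := by
        have : (k * Complex.I) * ((2 * π : ℝ) : ℂ) = k * (2 * π * Complex.I) := by
          push_cast; ring
        rw [this, Complex.exp_nat_mul, Complex.exp_two_pi_mul_I, one_pow]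
      rw [h2]
      simp
  have h0 : ∀ x : ℝ, Q.eval (Complex.exp (Complex.I * x))
      = ∑ k ∈ Finset.range (Q.natDegree + 1), Q.coeff k * (Complex.exp (Complex.I * x)) ^ k :=
    fun x => Polynomial.eval_eq_sum_range _
  simp only [h0]
  rw [intervalIntegral.integral_finsetSum]
  · rw [Finset.sum_eq_single 0]
    · rw [intervalIntegral.integral_const_mul, hk 0, if_pos rfl]
      ring
    · intro k _ hk0
      rw [intervalIntegral.integral_const_mul, hk k, if_neg hk0, mul_zero]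
    · intro h
      exact absurd (Finset.mem_range.2 (Nat.succ_pos _)) h
  · intro k _
    apply Continuous.intervalIntegrable
    fun_prop

/-- The polynomial entries. -/
noncomputable def qE (A B : M3) (ij : Fin 3 × Fin 3) : Polynomial ℂ :=
  Polynomial.C (Zm A B ij.1 ij.2) + Polynomial.C ((A ij.1 2 : ℂ) * (B 2 ij.2 : ℂ)) * Polynomial.X
    + Polynomial.C ((1 / 2 : ℂ) * ((A ij.1 0 : ℂ) - Complex.I * (A ij.1 1 : ℂ)) *
      ((B 0 ij.2 : ℂ) + Complex.I * (B 1 ij.2 : ℂ))) * Polynomial.X ^ 2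

theorem entry (A B : M3) (x : ℝ) (ij : Fin 3 × Fin 3) :
    Complex.exp (Complex.I * x) * (((A * Rot x * B) ij.1 ij.2 : ℝ) : ℂ)
      = (qE A B ij).eval (Complex.exp (Complex.I * x)) := by
  obtain ⟨i, k⟩ := ij
  have hI : Complex.I ^ 2 = -1 := Complex.I_sq
  have hcs : ((cos x : ℝ) : ℂ) ^ 2 + ((sin x : ℝ) : ℂ) ^ 2 = 1 := by
    rw [← Complex.ofReal_pow, ← Complex.ofReal_pow, ← Complex.ofReal_add,
      Real.cos_sq_add_sin_sq, Complex.ofReal_one]
  have hexp : Complex.exp (Complex.I * x) = ((cos x : ℝ) : ℂ) + Complex.I * ((sin x : ℝ) : ℂ) := by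
    rw [mul_comm Complex.I (x : ℂ), Complex.exp_mul_I, Complex.ofReal_cos, Complex.ofReal_sin]
    ring
  have hent : (A * Rot x * B) i k = cos x * (A i 0 * B 0 k + A i 1 * B 1 k)
      + sin x * (A i 1 * B 0 k - A i 0 * B 1 k) + A i 2 * B 2 k := by
    simp [Matrix.mul_apply, Fin.sum_univ_three, Rot]
    ring
  simp only [qE, Zm, Polynomial.eval_add, Polynomial.eval_mul, Polynomial.eval_C,
    Polynomial.eval_X, Polynomial.eval_pow]
  rw [hent, hexp]
  push_cast
  rw [← Complex.ofReal_cos, ← Complex.ofReal_sin]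
  set c : ℂ := ((cos x : ℝ) : ℂ)
  set s : ℂ := ((sin x : ℝ) : ℂ)
  linear_combination ((((A i 0 : ℂ) * (B 0 k : ℂ) + (A i 1 : ℂ) * (B 1 k : ℂ))
      + Complex.I * ((A i 1 : ℂ) * (B 0 k : ℂ) - (A i 0 : ℂ) * (B 1 k : ℂ))) / 2) * hcs
    + (((A i 1 : ℂ) * (B 0 k : ℂ) - (A i 0 : ℂ) * (B 1 k : ℂ)) * c * s
      + (A i 1 : ℂ) * (B 1 k : ℂ) / 2
      + (1 / 2) * (A i 1 : ℂ) * (B 1 k : ℂ) * (c ^ 2 - s ^ 2 + 2 * Complex.I * c * s
        + (Complex.I ^ 2 + 1) * s ^ 2)
      - (1 / 2) * (((A i 0 : ℂ) * (B 0 k : ℂ) + (A i 1 : ℂ) * (B 1 k : ℂ))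
        - Complex.I * ((A i 1 : ℂ) * (B 0 k : ℂ) - (A i 0 : ℂ) * (B 1 k : ℂ))) * s ^ 2) * hI

theorem evM_cast (P : MvPolynomial (Fin 3 × Fin 3) ℝ) (R : M3) :
    ((evM P R : ℝ) : ℂ) = MvPolynomial.aeval (fun ij => ((R ij.1 ij.2 : ℝ) : ℂ)) P := by
  have := MvPolynomial.aeval_algebraMap_apply (A := ℝ) (B := ℂ) (R := ℝ)
    (fun ij : Fin 3 × Fin 3 => R ij.1 ij.2) P
  rw [evM]
  exact this.symm

theorem eval_aeval (P : MvPolynomial (Fin 3 × Fin 3) ℝ) (q : Fin 3 × Fin 3 → Polynomial ℂ)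
    (u : ℂ) : (MvPolynomial.aeval q P).eval u = MvPolynomial.aeval (fun ij => (q ij).eval u) P := by
  have := MvPolynomial.comp_aeval_apply (f := q)
    ((Polynomial.aeval u : Polynomial ℂ →ₐ[ℂ] ℂ).restrictScalars ℝ) P
  simpa [Polynomial.aeval_def, Polynomial.eval₂_id] using this

theorem gE3 : G_E3 := by
  intro P d w A B hP
  set Q : Polynomial ℂ := MvPolynomial.aeval (qE A B) P with hQ
  have main : ∀ x : ℝ, Complex.exp (Complex.I * x) ^ d * ((evM P (A * Rot x * B) : ℝ) : ℂ)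
      = Q.eval (Complex.exp (Complex.I * x)) := by
    intro x
    rw [evM_cast, ← aeval_scale P hP, hQ, eval_aeval]
    congr 1
    congr 1
    funext ij
    exact entry A B x ij
  have hint : d ≤ w → ∫ x in (0 : ℝ)..2 * π,
      ((evM P (A * Rot x * B) : ℝ) : ℂ) * Complex.exp (Complex.I * w * x)
      = 2 * π * (Polynomial.X ^ (w - d) * Q : Polynomial ℂ).coeff 0 := by
    intro hdw
    rw [← integral_eval]
    congr 1
    funext x
    rw [Polynomial.eval_mul, Polynomial.eval_pow, Polynomial.eval_X, ← main x]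
    have h1 : Complex.exp (Complex.I * w * x) = Complex.exp (Complex.I * x) ^ w := by
      rw [← Complex.exp_nat_mul]
      congr 1
      ring
    rw [h1]
    obtain ⟨m, rfl⟩ := Nat.exists_eq_add_of_le hdw
    rw [Nat.add_sub_cancel_left, pow_add]
    ring
  constructor
  · intro hdw
    rw [hint hdw.le, Polynomial.mul_coeff_zero, Polynomial.coeff_X_pow,
      if_neg (by omega), zero_mul, mul_zero]
  · intro hdw
    rw [hint hdw.le, hdw, Nat.sub_self, pow_zero, one_mul, Polynomial.coeff_zero_eq_eval_zero,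
      hQ, eval_aeval, evC]
    congr 3
    funext ij
    simp [qE]

end Pool.Agent.Helper32.LU
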