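import Pool.Agent.Helper26.LU.Goals

set_option autoImplicit false

namespace Pool.Agent.Helper32.LU

open MeasureTheory Matrix Real Filter Topology
open Pool.Agent.Helper26.LU

theorem poly_zero {n : ℕ} (c : Fin n → ℝ)
    (h : ∀ x : ℝ, |x| < 1 / 2 → ∑ i, c i * x ^ (i : ℕ) = 0) : ∀ i, c i = 0 := by
  set p : Polynomial ℝ := ∑ i : Fin n, Polynomial.C (c i) * Polynomial.X ^ (i : ℕ) with hp
  have h0 : p = 0 := by
    apply Polynomial.eq_zero_of_infinite_isRoot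
    refine Set.Infinite.mono (s := Set.Ioo (-(1 / 2 : ℝ)) (1 / 2)) ?_
      (Set.Ioo_infinite (by norm_num))
    intro x hx
    have hx' : |x| < 1 / 2 := abs_lt.2 hx
    have := h x hx'
    simp only [Set.mem_setOf_eq, Polynomial.IsRoot.def, hp, Polynomial.eval_finset_sum,
      Polynomial.eval_mul, Polynomial.eval_C, Polynomial.eval_pow, Polynomial.eval_X]
    exact this
  intro i
  have h1 : p.coeff (i : ℕ) = c i := by
    rw [hp, Polynomial.finset_sum_coeff]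
    rw [Finset.sum_eq_single i]
    · simp
    · intro j _ hj
      have : (i : ℕ) ≠ (j : ℕ) := fun hh => hj (Fin.ext hh.symm)
      rw [Polynomial.coeff_C_mul, Polynomial.coeff_X_pow, if_neg this, mul_zero]
    · intro hh
      exact absurd (Finset.mem_univ i) hh
  rw [← h1, h0, Polynomial.coeff_zero]

theorem poly_zero2 {m n : ℕ} (c : Fin m → Fin n → ℝ)
    (h : ∀ x y : ℝ, |x| < 1 / 2 → |y| < 1 / 2 →
      ∑ i, ∑ j, c i j * (x ^ (i : ℕ) * y ^ (j : ℕ)) = 0) : ∀ i j, c i j = 0 := by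
  intro i
  apply poly_zero (c i)
  intro y hy
  have h1 := poly_zero (fun i => ∑ j, c i j * y ^ (j : ℕ)) (fun x hx => by
    rw [← h x y hx hy]
    refine Finset.sum_congr rfl fun i _ => ?_
    rw [Finset.sum_mul]
    refine Finset.sum_congr rfl fun j _ => ?_
    ring)
  exact h1 i

theorem sum_idx {N : ℕ} (f : Idx N → ℝ) :
    ∑ t, f t = ∑ i : Fin (N + 1), ∑ j : Fin (N + 1), ∑ k : Fin 2,
      if h : (i : ℕ) + (j : ℕ) + (k : ℕ) ≤ N then f ⟨(i, j, k), h⟩ else 0 := by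
  have h1 : ∑ i : Fin (N + 1), ∑ j : Fin (N + 1), ∑ k : Fin 2,
      (if h : (i : ℕ) + (j : ℕ) + (k : ℕ) ≤ N then f ⟨(i, j, k), h⟩ else 0)
      = ∑ t : Fin (N + 1) × Fin (N + 1) × Fin 2,
        if h : (t.1 : ℕ) + (t.2.1 : ℕ) + (t.2.2 : ℕ) ≤ N then f ⟨t, h⟩ else 0 := by
    rw [Fintype.sum_prod_type]
    refine Finset.sum_congr rfl fun i _ => ?_
    rw [Fintype.sum_prod_type]
  rw [h1, ← Finset.sum_filter_add_sum_filter_not Finset.univ
    (fun t : Fin (N + 1) × Fin (N + 1) × Fin 2 => (t.1 : ℕ) + (t.2.1 : ℕ) + (t.2.2 : ℕ) ≤ N)]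
  have h2 : ∑ t ∈ Finset.univ.filter (fun t : Fin (N + 1) × Fin (N + 1) × Fin 2 =>
      ¬ (t.1 : ℕ) + (t.2.1 : ℕ) + (t.2.2 : ℕ) ≤ N),
      (if h : (t.1 : ℕ) + (t.2.1 : ℕ) + (t.2.2 : ℕ) ≤ N then f ⟨t, h⟩ else 0) = 0 := by
    refine Finset.sum_eq_zero fun t ht => ?_
    rw [dif_neg (Finset.mem_filter.1 ht).2]
  rw [h2, add_zero, Finset.sum_subtype (p := fun t : Fin (N + 1) × Fin (N + 1) × Fin 2 =>
    (t.1 : ℕ) + (t.2.1 : ℕ) + (t.2.2 : ℕ) ≤ N) _ (by simp)]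
  refine Finset.sum_congr rfl fun t _ => ?_
  rw [dif_pos t.2]

/-- A polynomial of normal form which vanishes on the sphere is zero. -/
theorem ev_vanish {N : ℕ} (a : Idx N → ℝ) (h : ∀ x ∈ sph, ev a x = 0) : a = 0 := by
  set A : Fin (N + 1) → Fin (N + 1) → Fin 2 → ℝ := fun i j k =>
    if h : (i : ℕ) + (j : ℕ) + (k : ℕ) ≤ N then a ⟨(i, j, k), h⟩ else 0 with hA
  have hev : ∀ x : V, ev a x = ∑ i, ∑ j, ∑ k, A i j k * (x 0 ^ (i : ℕ) * x 1 ^ (j : ℕ)
      * x 2 ^ (k : ℕ)) := by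
    intro x
    rw [ev, sum_idx]
    refine Finset.sum_congr rfl fun i _ => Finset.sum_congr rfl fun j _ =>
      Finset.sum_congr rfl fun k _ => ?_
    simp only [hA]
    split_ifs with hh
    · rfl
    · simp
  have key : ∀ x y : ℝ, |x| < 1 / 2 → |y| < 1 / 2 →
      ∑ i, ∑ j, A i j 0 * (x ^ (i : ℕ) * y ^ (j : ℕ)) = 0 ∧
      ∑ i, ∑ j, A i j 1 * (x ^ (i : ℕ) * y ^ (j : ℕ)) = 0 := by
    intro x y hx hy
    have hx2 : x ^ 2 < 1 / 4 := by
      have := abs_lt.1 hx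
      nlinarith
    have hy2 : y ^ 2 < 1 / 4 := by
      have := abs_lt.1 hy
      nlinarith
    set z := Real.sqrt (1 - x ^ 2 - y ^ 2) with hz
    have hzpos : 0 < z := Real.sqrt_pos.2 (by linarith)
    have hzz : z ^ 2 = 1 - x ^ 2 - y ^ 2 := Real.sq_sqrt (by linarith)
    have hs : ∀ w : ℝ, w ^ 2 = 1 - x ^ 2 - y ^ 2 → ![x, y, w] ∈ sph := by
      intro w hw
      simp [sph, dotProduct, Fin.sum_univ_three]
      nlinarith
    have e1 : ∀ w : ℝ, ev a ![x, y, w] = ∑ i, ∑ j, A i j 0 * (x ^ (i : ℕ) * y ^ (j : ℕ))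
        + w * ∑ i, ∑ j, A i j 1 * (x ^ (i : ℕ) * y ^ (j : ℕ)) := by
      intro w
      rw [hev, Finset.mul_sum, ← Finset.sum_add_distrib]
      refine Finset.sum_congr rfl fun i _ => ?_
      rw [Finset.mul_sum, ← Finset.sum_add_distrib]
      refine Finset.sum_congr rfl fun j _ => ?_
      simp [Fin.sum_univ_two]
      ring
    have p1 := h _ (hs z hzz)
    have p2 := h _ (hs (-z) (by rw [neg_sq]; exact hzz))
    rw [e1] at p1 p2
    set P := ∑ i, ∑ j, A i j 0 * (x ^ (i : ℕ) * y ^ (j : ℕ))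
    set Q := ∑ i, ∑ j, A i j 1 * (x ^ (i : ℕ) * y ^ (j : ℕ))
    have hzQ : z * Q = 0 := by linarith
    constructor
    · linarith
    · rcases mul_eq_zero.1 hzQ with h0 | h0
      · exact absurd h0 hzpos.ne'
      · exact h0
  have k0 := poly_zero2 (fun i j => A i j 0) (fun x y hx hy => (key x y hx hy).1)
  have k1 := poly_zero2 (fun i j => A i j 1) (fun x y hx hy => (key x y hx hy).2)
  funext t
  obtain ⟨⟨i, j, k⟩, ht⟩ := t
  have e2 : A i j k = a ⟨(i, j, k), ht⟩ := by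
    simp only [hA]
    rw [dif_pos ht]
  rw [← e2]
  fin_cases k
  · exact k0 i j
  · exact k1 i j

theorem gM5 : G_M5 := by
  intro μ hμ N
  have hprob := hμ.prob
  have hop : μ.IsOpenPosMeasure := ⟨fun U hU hne => (hμ.opn U hU hne).ne'⟩
  have hRe : Continuous (fun R : ↥SO3 => R.1 *ᵥ e 0) := by fun_prop
  have hmon : ∀ t : Idx N, Continuous (fun R : ↥SO3 => mon t (R.1 *ᵥ e 0)) := by
    intro t
    unfold mon
    fun_prop
  have hint : ∀ f : ↥SO3 → ℝ, Continuous f → Integrable f μ := fun f hf =>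
    hf.integrable_of_hasCompactSupport (HasCompactSupport.of_compactSpace f)
  have hevc : ∀ a : Idx N → ℝ, Continuous (fun R : ↥SO3 => ev a (R.1 *ᵥ e 0)) := fun a =>
    (ev_continuous a).comp hRe
  set Ψ : (Idx N → ℝ) → ℝ := fun a => ∫ R : ↥SO3, (ev a (R.1 *ᵥ e 0)) ^ 2 ∂μ with hΨ
  have hΨe : ∀ a, Ψ a = ∑ s, ∑ t, a s * a t *
      ∫ R : ↥SO3, mon s (R.1 *ᵥ e 0) * mon t (R.1 *ᵥ e 0) ∂μ := by
    intro a
    have h1 : ∀ R : ↥SO3, (ev a (R.1 *ᵥ e 0)) ^ 2 = ∑ s, ∑ t, a s * a t *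
        (mon s (R.1 *ᵥ e 0) * mon t (R.1 *ᵥ e 0)) := by
      intro R
      rw [ev, pow_two, Finset.sum_mul_sum]
      refine Finset.sum_congr rfl fun s _ => Finset.sum_congr rfl fun t _ => ?_
      ring
    simp only [hΨ, h1]
    rw [integral_finset_sum]
    · refine Finset.sum_congr rfl fun s _ => ?_
      rw [integral_finset_sum]
      · refine Finset.sum_congr rfl fun t _ => ?_
        rw [integral_const_mul]
      · intro t _
        exact hint _ (((hmon s).mul (hmon t)).const_mul _)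
    · intro s _
      exact hint _ (continuous_finset_sum _ fun t _ => ((hmon s).mul (hmon t)).const_mul _)
  have hΨc : Continuous Ψ := by
    have : Ψ = fun a => ∑ s, ∑ t, a s * a t *
      ∫ R : ↥SO3, mon s (R.1 *ᵥ e 0) * mon t (R.1 *ᵥ e 0) ∂μ := funext hΨe
    rw [this]
    fun_prop
  have hΨh : ∀ (r : ℝ) (a : Idx N → ℝ), Ψ (r • a) = r ^ 2 * Ψ a := by
    intro r a
    rw [hΨe, hΨe, Finset.mul_sum]
    refine Finset.sum_congr rfl fun s _ => ?_
    rw [Finset.mul_sum]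
    refine Finset.sum_congr rfl fun t _ => ?_
    simp only [Pi.smul_apply, smul_eq_mul]
    ring
  have hΨ0 : ∀ a, Ψ a = 0 → a = 0 := by
    intro a ha
    have hc : Continuous (fun R : ↥SO3 => (ev a (R.1 *ᵥ e 0)) ^ 2) := (hevc a).pow 2
    have h1 := (integral_eq_zero_iff_of_nonneg (fun R => sq_nonneg _) (hint _ hc)).1 ha
    have h2 := (Continuous.ae_eq_iff_eq μ hc continuous_const).1 h1
    apply ev_vanish a
    intro x hx
    obtain ⟨Q, hQ, hQx⟩ := exists_rot hx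
    have h3 := congrFun h2 ⟨Q, hQ⟩
    simp only at h3
    rw [hQx] at h3
    exact pow_eq_zero_iff (two_ne_zero) |>.1 h3
  have hΨnn : ∀ a, 0 ≤ Ψ a := fun a => integral_nonneg fun R => sq_nonneg _
  haveI : Nonempty (Idx N) := ⟨⟨(0, 0, 0), by simp⟩⟩
  have hne : (Metric.sphere (0 : Idx N → ℝ) 1).Nonempty :=
    (NormedSpace.sphere_nonempty (E := Idx N → ℝ)).2 zero_le_one
  obtain ⟨b, hb, hmin⟩ := (isCompact_sphere (0 : Idx N → ℝ) 1).exists_isMinOn hne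
    hΨc.continuousOn
  have hb1 : ‖b‖ = 1 := by simpa using hb
  have hbpos : 0 < Ψ b := by
    rcases (hΨnn b).lt_or_eq with h | h
    · exact h
    · exfalso
      have := hΨ0 b h.symm
      rw [this, norm_zero] at hb1
      exact zero_ne_one hb1
  refine ⟨Ψ b, hbpos, fun a => ?_⟩
  show Ψ b * ‖a‖ ^ 2 ≤ Ψ a
  by_cases ha : a = 0
  · rw [ha, norm_zero]
    simpa using hΨnn 0
  · have hn : 0 < ‖a‖ := norm_pos_iff.2 ha
    have h1 : Ψ b ≤ Ψ (‖a‖⁻¹ • a) := by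
      apply hmin
      rw [mem_sphere_zero_iff_norm, norm_smul, norm_inv, norm_norm]
      exact inv_mul_cancel₀ hn.ne'
    rw [hΨh] at h1
    calc Ψ b * ‖a‖ ^ 2 ≤ (‖a‖⁻¹ ^ 2 * Ψ a) * ‖a‖ ^ 2 := by gcongr
      _ = Ψ a := by field_simp

end Pool.Agent.Helper32.LU
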