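import Pool.Agent.Helper26.LU.Goals

set_option autoImplicit false

namespace Pool.Agent.Helper32.LU

open MeasureTheory Matrix Real Filter Topology
open Pool.Agent.Helper26.LU

theorem tavg_sum {ι : Type} (s : Finset ι) (g : ι → ℝ → ℝ → ℝ)
    (hg : ∀ i ∈ s, Continuous (fun z : ℝ × ℝ => g i z.1 z.2)) :
    tavg (fun x y => ∑ i ∈ s, g i x y) = ∑ i ∈ s, tavg (g i) := by
  classical
  induction s using Finset.induction_on with
  | empty => simp [tavg]
  | insert i s hi ih =>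
    rw [Finset.sum_insert hi]
    have h1 : tavg (fun x y => ∑ j ∈ insert i s, g j x y)
        = tavg (fun x y => g i x y + ∑ j ∈ s, g j x y) := by
      congr 1
      funext x y
      rw [Finset.sum_insert hi]
    rw [h1, tavg_add (hg i (Finset.mem_insert_self i s)), ih]
    · exact fun j hj => hg j (Finset.mem_insert_of_mem hj)
    · exact continuous_finsetSum _ fun j hj => hg j (Finset.mem_insert_of_mem hj)

theorem e_coord_le (j : Fin 4) (i : Fin 3) : |e j i| ≤ 1 := sph_coord_le (e_sph j) i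

/-- Entrywise close matrices move the vertices to close points. -/
theorem mulVec_near {R Q : M3} {c : ℝ} (h : ∀ i j, |R i j - Q i j| ≤ c) (j : Fin 4) :
    ‖R *ᵥ e j - Q *ᵥ e j‖ ≤ 3 * c := by
  have hc : 0 ≤ c := (abs_nonneg _).trans (h 0 0)
  rw [pi_norm_le_iff_of_nonneg (by positivity)]
  intro i
  have : (R *ᵥ e j - Q *ᵥ e j) i = ∑ k, (R i k - Q i k) * e j k := by
    simp only [Pi.sub_apply, Matrix.mulVec, dotProduct]
    rw [← Finset.sum_sub_distrib]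
    exact Finset.sum_congr rfl fun k _ => by ring
  rw [this, Real.norm_eq_abs]
  refine (Finset.abs_sum_le_sum_abs _ _).trans ?_
  calc ∑ k, |(R i k - Q i k) * e j k| ≤ ∑ _k : Fin 3, c := by
        refine Finset.sum_le_sum fun k _ => ?_
        rw [abs_mul]
        have := mul_le_mul (h i k) (e_coord_le j k) (abs_nonneg _) hc
        simpa using this
    _ = 3 * c := by simp

/-- One step of the chain. -/
theorem step {N M : ℕ} {a : Idx N → ℝ} {h : V → ℝ} {κ D b : ℝ} {Q : M3} (hQ : Q ∈ SO3)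
    (hκ : 0 ≤ κ)
    (hlip : ∀ u ∈ sph, ∀ v ∈ sph, |h u - h v| ≤ κ * ‖u - v‖)
    (hR : Rk M a Q M ∈ SO3)
    (hy : ∀ j, yh M a (Rk M a Q M) j ∈ sph)
    (hb : ‖yh M a (Rk M a Q M) 0 - Q *ᵥ e 0‖ ≤ b)
    (hD : ∀ R ∈ SO3, |∑ j, h (yh M a R j)| ≤ D) :
    |h (Q *ᵥ e 0) + ∑ k : Fin 3, h (yh M a (Rk M a Q M) k.succ)| ≤ D + κ * b := by
  have h1 := hD _ hR
  rw [Fin.sum_univ_succ] at h1
  have h2 := hlip _ (mulVec_sph hQ (e_sph 0)) _ (hy 0)
  have h3 : ‖Q *ᵥ e 0 - yh M a (Rk M a Q M) 0‖ ≤ b := by rw [norm_sub_rev]; exact hb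
  have h4 : κ * ‖Q *ᵥ e 0 - yh M a (Rk M a Q M) 0‖ ≤ κ * b :=
    mul_le_mul_of_nonneg_left h3 hκ
  have key : h (Q *ᵥ e 0) + ∑ k : Fin 3, h (yh M a (Rk M a Q M) k.succ)
      = (h (yh M a (Rk M a Q M) 0) + ∑ k : Fin 3, h (yh M a (Rk M a Q M) k.succ))
        + (h (Q *ᵥ e 0) - h (yh M a (Rk M a Q M) 0)) := by ring
  rw [key]
  refine (abs_add_le _ _).trans ?_
  linarith

theorem gT9 (hTU : G_TU) (hTA : G_TA) (hT5 : G_T5) (hT8 : G_T8) : G_T9 := by
  intro μ hμ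
  obtain ⟨N₀, h8⟩ := hT8 μ hμ (1 / 36) (by norm_num)
  refine ⟨N₀, fun N hN M => ?_⟩
  obtain ⟨C8, hC8, h8⟩ := h8 N hN
  obtain ⟨C5, hC5, δ5, hδ5, h5⟩ := hT5 N M
  obtain ⟨Cy, hCy, δy, hδy, hy⟩ := yv_near N M
  have hU : ∀ p : Fin 3 × Fin 3, ∃ δ : ℝ, 0 < δ ∧ ∀ a : Idx N → ℝ, ‖a‖ ≤ δ → ∀ Q ∈ SO3,
      Continuous (fun z => FA N M p.1.succ p.2.succ ((a, Q), z)) ∧
      (∀ z, FA N M p.1.succ p.2.succ ((a, Q), z) ≠ 0) ∧
      ∀ (g : V → ℝ) (E : ℝ), ContinuousOn g sph → (∀ u ∈ sph, |g u| ≤ E) →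
      |tavg (fun x y => g (proj (FA N M p.1.succ p.2.succ ((a, Q), x, y))))
        - tavg (fun x y => g ((Q * Rot x * sg p.1.succ * Rot y) *ᵥ e p.2.succ))|
        ≤ 1 / 36 * E := by
    intro p
    obtain ⟨δ, hδ, hh⟩ := hTU N (FA N M p.1.succ p.2.succ) (fun _ => 1)
      (hTA N M _ _ (Fin.succ_ne_zero _) (Fin.succ_ne_zero _)) (1 / 36) (by norm_num)
    refine ⟨δ, hδ, fun a ha Q hQ => ?_⟩
    obtain ⟨k1, _, k3, k4⟩ := hh a ha Q hQ Q hQ (fun i j => by simp [hδ.le])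
    refine ⟨k1, k3, fun g E hg hE => ?_⟩
    have := k4 g E hg hE
    simp only [one_mul] at this
    have e1 : (fun x y => g (proj (FA N M p.1.succ p.2.succ ((0, Q), x, y))))
        = fun x y => g ((Q * Rot x * sg p.1.succ * Rot y) *ᵥ e p.2.succ) := by
      funext x y
      rw [FA_zero N M hQ, proj_self]
      exact mulVec_sph (SO3_mul (SO3_mul (SO3_mul hQ (Rot_SO3 x)) (sg_SO3 _)) (Rot_SO3 y))
        (e_sph _)
    rw [e1] at this
    exact this
  choose δU hδU hU using hU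
  obtain ⟨p0, hp0⟩ := Finite.exists_min δU
  set c := Cy + 3 * C5 with hc
  have hc0 : 0 < c := by positivity
  refine ⟨9 * C8 + 4 * C5, by positivity, min (min (δU p0) δ5) (min δy (min 1 (1 / (4 * c)))),
    by have := hδU p0; positivity, ?_⟩
  intro a ha h κ E D τ hκ0 hκ1 hlip hE hmom hD u hu
  have ha1 : ‖a‖ ≤ δU p0 := ha.trans ((min_le_left _ _).trans (min_le_left _ _))
  have ha2 : ‖a‖ ≤ δ5 := ha.trans ((min_le_left _ _).trans (min_le_right _ _))
  have ha3 : ‖a‖ ≤ δy := ha.trans ((min_le_right _ _).trans (min_le_left _ _))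
  have ha4 : ‖a‖ ≤ 1 := ha.trans ((min_le_right _ _).trans ((min_le_right _ _).trans
    (min_le_left _ _)))
  have ha5 : ‖a‖ ≤ 1 / (4 * c) := ha.trans ((min_le_right _ _).trans ((min_le_right _ _).trans
    (min_le_right _ _)))
  have ha0 : 0 ≤ ‖a‖ := norm_nonneg a
  have hca : c * ‖a‖ ≤ 1 / 4 := by
    calc c * ‖a‖ ≤ c * (1 / (4 * c)) := mul_le_mul_of_nonneg_left ha5 hc0.le
      _ = 1 / 4 := by field_simp
  have hE0 : 0 ≤ E := (abs_nonneg _).trans (hE u hu)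
  have hτ0 : 0 ≤ τ := (abs_nonneg _).trans (hmom ⟨(0, 0, 0), by simp⟩)
  have hcont : ContinuousOn h sph := by
    have : LipschitzOnWith (Real.toNNReal κ) h sph := by
      apply LipschitzOnWith.of_dist_le_mul
      intro x hx y hy'
      rw [Real.dist_eq, dist_eq_norm, Real.coe_toNNReal κ hκ0]
      exact hlip x hx y hy'
    exact this.continuousOn
  obtain ⟨Q, hQ, hQu⟩ := exists_rot hu
  set b := C5 * ‖a‖ ^ (M + 1) with hb
  -- the second step, for a general rotation of the chain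
  have hchain : ∀ x y : ℝ, |h u - ∑ i : Fin 3, ∑ l : Fin 3,
      h (proj (FA N M i.succ l.succ ((a, Q), x, y)))| ≤ 4 * (D + κ * b) := by
    intro x y
    set Q1 : M3 := Q * Rot x with hQ1
    have hQ1S : Q1 ∈ SO3 := SO3_mul hQ (Rot_SO3 x)
    have hQ1u : Q1 *ᵥ e 0 = u := by
      rw [hQ1, ← Matrix.mulVec_mulVec, Rot_e0, hQu]
    obtain ⟨r1, r2, r3⟩ := h5 a ha2 Q1 hQ1S
    have s1 := step hQ1S hκ0 hlip r1 (fun j => (hy a ha3 _ r1 j).2.2.1) r3 hD
    rw [hQ1u] at s1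
    have s2 : ∀ i : Fin 3, |h (yh M a (Rk M a Q1 M) i.succ) + ∑ l : Fin 3,
        h (proj (FA N M i.succ l.succ ((a, Q), x, y)))| ≤ D + κ * b := by
      intro i
      set v := yh M a (Rk M a Q1 M) i.succ with hv
      have hvs : v ∈ sph := (hy a ha3 _ r1 i.succ).2.2.1
      have hps : Q1 *ᵥ e i.succ ∈ sph := mulVec_sph hQ1S (e_sph _)
      have hclose : ‖v - Q1 *ᵥ e i.succ‖ ≤ c * ‖a‖ := by
        have t1 := (hy a ha3 _ r1 i.succ).2.2.2
        have t2 := mulVec_near r2 i.succ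
        calc ‖v - Q1 *ᵥ e i.succ‖
            = ‖(v - Rk M a Q1 M *ᵥ e i.succ) + (Rk M a Q1 M *ᵥ e i.succ - Q1 *ᵥ e i.succ)‖ := by
              congr 1; abel
          _ ≤ Cy * ‖a‖ + 3 * (C5 * ‖a‖) := (norm_add_le _ _).trans (add_le_add t1 t2)
          _ = c * ‖a‖ := by rw [hc]; ring
      have hne : 1 + (Q1 *ᵥ e i.succ) ⬝ᵥ v ≠ 0 := by
        have t3 : (Q1 *ᵥ e i.succ) ⬝ᵥ v = 1 + (Q1 *ᵥ e i.succ) ⬝ᵥ (v - Q1 *ᵥ e i.succ) := by
          have : (Q1 *ᵥ e i.succ) ⬝ᵥ (Q1 *ᵥ e i.succ) = 1 := hps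
          rw [dotProduct_sub, this]; ring
        have t4 := dot_le (Q1 *ᵥ e i.succ) (v - Q1 *ᵥ e i.succ)
        rw [nrm_sph hps, one_mul] at t4
        have t5 := nrm_le_norm (v - Q1 *ᵥ e i.succ)
        have t6 := neg_abs_le ((Q1 *ᵥ e i.succ) ⬝ᵥ (v - Q1 *ᵥ e i.succ))
        have : 0 < 1 + (Q1 *ᵥ e i.succ) ⬝ᵥ v := by
          rw [t3]; linarith
        exact this.ne'
      set Q' : M3 := Qp M a Q i.succ x y with hQ'
      have hQ'e : Q' = Bm (Q1 *ᵥ e i.succ) v * Q1 * sg i.succ * Rot y := rfl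
      have hQ'S : Q' ∈ SO3 := by
        rw [hQ'e]
        exact SO3_mul (SO3_mul (SO3_mul (Bm_SO3 hps hvs hne) hQ1S) (sg_SO3 _)) (Rot_SO3 y)
      have hQ'v : Q' *ᵥ e 0 = v := by
        rw [hQ'e, ← Matrix.mulVec_mulVec, Rot_e0, ← Matrix.mulVec_mulVec, sg_e0,
          ← Matrix.mulVec_mulVec, Bm_mulVec hps hvs hne]
      obtain ⟨q1, _, q3⟩ := h5 a ha2 Q' hQ'S
      have s3 := step hQ'S hκ0 hlip q1 (fun j => (hy a ha3 _ q1 j).2.2.1) q3 hD
      rw [hQ'v] at s3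
      exact s3
    have key : h u - ∑ i : Fin 3, ∑ l : Fin 3, h (proj (FA N M i.succ l.succ ((a, Q), x, y)))
        = (h u + ∑ i : Fin 3, h (yh M a (Rk M a Q1 M) i.succ))
          - ∑ i : Fin 3, (h (yh M a (Rk M a Q1 M) i.succ) + ∑ l : Fin 3,
            h (proj (FA N M i.succ l.succ ((a, Q), x, y)))) := by
      rw [Finset.sum_add_distrib]; ring
    rw [key]
    refine (abs_sub _ _).trans ?_
    have s4 : |∑ i : Fin 3, (h (yh M a (Rk M a Q1 M) i.succ) + ∑ l : Fin 3,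
            h (proj (FA N M i.succ l.succ ((a, Q), x, y))))| ≤ 3 * (D + κ * b) := by
      refine (Finset.abs_sum_le_sum_abs _ _).trans ?_
      calc _ ≤ ∑ _i : Fin 3, (D + κ * b) := Finset.sum_le_sum fun i _ => s2 i
        _ = 3 * (D + κ * b) := by simp; ring
    linarith
  -- averaging
  have hcF : ∀ i l : Fin 3, Continuous (fun z : ℝ × ℝ =>
      h (proj (FA N M i.succ l.succ ((a, Q), z.1, z.2)))) := by
    intro i l
    obtain ⟨k1, k2, _⟩ := hU (i, l) a (ha1.trans (hp0 (i, l))) Q hQ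
    exact cont_comp hcont k1 k2
  have hterm : ∀ i l : Fin 3, |tavg (fun x y =>
      h (proj (FA N M i.succ l.succ ((a, Q), x, y))))| ≤ 1 / 18 * E + C8 * τ := by
    intro i l
    obtain ⟨_, _, k3⟩ := hU (i, l) a (ha1.trans (hp0 (i, l))) Q hQ
    have t1 := k3 h E hcont hE
    have t2 := h8 h E τ hcont hE hmom Q hQ i.succ l.succ (Fin.succ_ne_zero _)
      (Fin.succ_ne_zero _)
    have t3 : |tavg (fun x y => h (proj (FA N M i.succ l.succ ((a, Q), x, y))))|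
        ≤ |tavg (fun x y => h (proj (FA N M i.succ l.succ ((a, Q), x, y))))
          - tavg (fun x y => h ((Q * Rot x * sg i.succ * Rot y) *ᵥ e l.succ))|
          + |tavg (fun x y => h ((Q * Rot x * sg i.succ * Rot y) *ᵥ e l.succ))| := by
      have := abs_add_le (tavg (fun x y => h (proj (FA N M i.succ l.succ ((a, Q), x, y))))
          - tavg (fun x y => h ((Q * Rot x * sg i.succ * Rot y) *ᵥ e l.succ)))
        (tavg (fun x y => h ((Q * Rot x * sg i.succ * Rot y) *ᵥ e l.succ)))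
      rwa [sub_add_cancel] at this
    linarith
  have hS : tavg (fun x y => ∑ i : Fin 3, ∑ l : Fin 3,
      h (proj (FA N M i.succ l.succ ((a, Q), x, y))))
      = ∑ i : Fin 3, ∑ l : Fin 3, tavg (fun x y =>
        h (proj (FA N M i.succ l.succ ((a, Q), x, y)))) := by
    rw [tavg_sum Finset.univ (fun (i : Fin 3) x y => ∑ l : Fin 3,
      h (proj (FA N M i.succ l.succ ((a, Q), x, y))))
      (fun i _ => continuous_finsetSum _ fun l _ => hcF i l)]
    refine Finset.sum_congr rfl fun i _ => ?_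
    rw [tavg_sum Finset.univ (fun (l : Fin 3) x y =>
      h (proj (FA N M i.succ l.succ ((a, Q), x, y)))) (fun l _ => hcF i l)]
  have hSle : |∑ i : Fin 3, ∑ l : Fin 3, tavg (fun x y =>
        h (proj (FA N M i.succ l.succ ((a, Q), x, y))))| ≤ 9 * (1 / 18 * E + C8 * τ) := by
    refine (Finset.abs_sum_le_sum_abs _ _).trans ?_
    calc _ ≤ ∑ _i : Fin 3, 3 * (1 / 18 * E + C8 * τ) := by
          refine Finset.sum_le_sum fun i _ => ?_
          refine (Finset.abs_sum_le_sum_abs _ _).trans ?_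
          calc _ ≤ ∑ _l : Fin 3, (1 / 18 * E + C8 * τ) :=
                Finset.sum_le_sum fun l _ => hterm i l
            _ = 3 * (1 / 18 * E + C8 * τ) := by simp; ring
      _ = 9 * (1 / 18 * E + C8 * τ) := by simp; ring
  have hav : |h u - ∑ i : Fin 3, ∑ l : Fin 3, tavg (fun x y =>
        h (proj (FA N M i.succ l.succ ((a, Q), x, y))))| ≤ 4 * (D + κ * b) := by
    have t1 := tavg_le (g := fun x y => h u + (-1) * ∑ i : Fin 3, ∑ l : Fin 3,
      h (proj (FA N M i.succ l.succ ((a, Q), x, y)))) (B := 4 * (D + κ * b)) (by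
        intro x y
        have := hchain x y
        rwa [neg_one_mul, ← sub_eq_add_neg])
    have hcS : Continuous (fun z : ℝ × ℝ => ∑ i : Fin 3, ∑ l : Fin 3,
        h (proj (FA N M i.succ l.succ ((a, Q), z.1, z.2)))) :=
      continuous_finsetSum _ fun i _ => continuous_finsetSum _ fun l _ => hcF i l
    rw [tavg_add (g := fun _ _ => h u) (h := fun x y => (-1) * ∑ i : Fin 3, ∑ l : Fin 3,
      h (proj (FA N M i.succ l.succ ((a, Q), x, y)))) continuous_const (hcS.const_mul _),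
      tavg_const, tavg_smul, hS, neg_one_mul, ← sub_eq_add_neg] at t1
    exact t1
  have hfin : |h u| ≤ 4 * (D + κ * b) + 9 * (1 / 18 * E + C8 * τ) := by
    have := abs_add_le (h u - ∑ i : Fin 3, ∑ l : Fin 3, tavg (fun x y =>
        h (proj (FA N M i.succ l.succ ((a, Q), x, y)))))
      (∑ i : Fin 3, ∑ l : Fin 3, tavg (fun x y =>
        h (proj (FA N M i.succ l.succ ((a, Q), x, y)))))
    rw [sub_add_cancel] at this
    linarith
  have hbM : κ * b ≤ C5 * ‖a‖ ^ M := by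
    have p1 : ‖a‖ ^ (M + 1) ≤ ‖a‖ ^ M := pow_le_pow_of_le_one ha0 ha4 (Nat.le_succ M)
    have p2 : 0 ≤ C5 * ‖a‖ ^ (M + 1) := by positivity
    calc κ * b ≤ 1 * b := mul_le_mul_of_nonneg_right hκ1 p2
      _ = C5 * ‖a‖ ^ (M + 1) := one_mul _
      _ ≤ C5 * ‖a‖ ^ M := mul_le_mul_of_nonneg_left p1 hC5.le
  have hx1 : 0 ≤ C5 * τ := by positivity
  have hx2 : 0 ≤ C8 * ‖a‖ ^ M := by positivity
  calc |h u| ≤ 4 * (D + κ * b) + 9 * (1 / 18 * E + C8 * τ) := hfin
    _ ≤ E / 2 + 4 * D + (9 * C8 + 4 * C5) * τ + (9 * C8 + 4 * C5) * ‖a‖ ^ M := by nlinarith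

end Pool.Agent.Helper32.LU
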